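import Pool.Agent.Y561.TO.Small

set_option autoImplicit false

/-! Binary relations with unary predicates. -/

namespace Pool.Agent.Y561.TO

open Set
open Pool.Agent.H533R2.VO (RS)
open Pool.Agent.H533R2.VS (act p2 VCu US)
open Pool.Agent.W875.MR

/-- Binary relations with countably many unary predicates. -/
abbrev URel : Type := (ℕ → ℕ → Bool) × (ℕ → ℕ → Bool)

/-- Isomorphism. -/
def UIso (x y : URel) : Prop :=
  ∃ σ : Equiv.Perm ℕ, (∀ u v, y.1 (σ u) (σ v) = x.1 u v) ∧ ∀ i u, y.2 i (σ u) = x.2 i u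

/-- The relation as a structure. -/
def J (y : ℕ → ℕ → Bool) : RS A2 := fun i t => if i = 0 then y (t 0) (t 1) else false

def Pr (x : RS A2) : ℕ → ℕ → Bool := fun u v => x 0 (p2 u v)

theorem cont_J : Continuous J := by
  refine continuous_pi fun i => continuous_pi fun t => ?_
  unfold J
  by_cases hi : i = 0
  · simp only [hi, if_true]
    exact (continuous_apply _).comp (continuous_apply _)
  · simp only [hi, if_false]
    exact continuous_const

theorem cont_Pr : Continuous Pr :=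
  continuous_pi fun u => continuous_pi fun v =>
    (continuous_apply (p2 u v)).comp (continuous_apply 0)

theorem uiso_sy {x y : URel} (h : UIso x y) : UIso y x := by
  obtain ⟨σ, h1, h2⟩ := h
  refine ⟨σ.symm, fun u v => ?_, fun i u => ?_⟩
  · rw [← h1, σ.apply_symm_apply, σ.apply_symm_apply]
  · rw [← h2, σ.apply_symm_apply]

theorem iso_J {x y : URel} (h : UIso x y) :
    Pool.Agent.H533R2.VS.UIso (a := A2) (J x.1, x.2) (J y.1, y.2) := by
  obtain ⟨σ, h1, h2⟩ := h
  refine ⟨σ, fun i t => ?_, h2⟩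
  show (if i = 0 then y.1 (σ (t 0)) (σ (t 1)) else false) = if i = 0 then x.1 (t 0) (t 1) else false
  rw [h1]

theorem J_G1 (y : ℕ → ℕ → Bool) : J y = G1 (fun u v => y u v = true) := by
  funext i t
  rw [G1_apply, Bool.eq_iff_iff, dcd_iff]
  show (if i = 0 then y (t 0) (t 1) else false) = true ↔ _
  by_cases hi : i = 0
  · simp [hi]
  · simp [hi]

/-- From structures to relations. -/
theorem conv {V : (ℕ → ℕ → Prop) → Prop} (h : VCu (fun x : RS A2 => ∃ E, V E ∧ x = G1 E))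
    (B : Set URel) (hB : MeasurableSet B) (hBi : ∀ x y, UIso x y → (x ∈ B ↔ y ∈ B))
    (hBV : ∀ x ∈ B, V (fun u v => x.1 u v = true)) :
    (∃ f : ℕ → URel, ∀ x ∈ B, ∃ n, UIso (f n) x) ∨
    (∃ g : (ℕ → Bool) → URel, Continuous g ∧ (∀ c, g c ∈ B) ∧
      ∀ c d, UIso (g c) (g d) → c = d) := by
  have hc : Continuous (fun z : US A2 => ((Pr z.1, z.2) : URel)) :=
    (cont_Pr.comp continuous_fst).prodMk continuous_snd
  have key : ∀ x y : US A2, Pool.Agent.H533R2.VS.UIso x y → x.1 = J (Pr x.1) →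
      y.1 = J (Pr y.1) ∧ UIso (Pr x.1, x.2) (Pr y.1, y.2) := by
    intro x y hxy hx
    have hxy' := hxy
    obtain ⟨σ, h1, h2⟩ := hxy
    have e : ∀ u v, Pr y.1 (σ u) (σ v) = Pr x.1 u v := by
      intro u v
      have h3 := h1 0 (p2 u v)
      rw [Pool.Agent.W875.MR.p2_comp] at h3
      exact h3
    refine ⟨?_, σ, e, h2⟩
    funext i t
    have h3 := h1 i (⇑σ.symm ∘ t)
    have h4 : ⇑σ ∘ (⇑σ.symm ∘ t) = t := by
      funext j
      exact σ.apply_symm_apply _
    rw [h4] at h3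
    rw [h3, hx]
    show (if i = 0 then Pr x.1 (σ.symm (t 0)) (σ.symm (t 1)) else false) =
      if i = 0 then Pr y.1 (t 0) (t 1) else false
    rw [← e, σ.apply_symm_apply, σ.apply_symm_apply]
  have hsym : ∀ x y : US A2, Pool.Agent.H533R2.VS.UIso x y →
      (x.1 = J (Pr x.1) ∧ ((Pr x.1, x.2) : URel) ∈ B) →
      (y.1 = J (Pr y.1) ∧ ((Pr y.1, y.2) : URel) ∈ B) := by
    rintro x y hxy ⟨hx1, hx2⟩
    obtain ⟨h1, h2⟩ := key x y hxy hx1
    exact ⟨h1, (hBi _ _ h2).1 hx2⟩
  have hm : MeasurableSet {x : US A2 | x.1 = J (Pr x.1) ∧ ((Pr x.1, x.2) : URel) ∈ B} := by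
    refine MeasurableSet.inter ?_ (hc.measurable hB)
    exact (isClosed_eq continuous_fst (cont_J.comp (cont_Pr.comp continuous_fst))).measurableSet
  rcases h _ hm (fun x y hxy => ⟨hsym x y hxy, hsym y x (uiso_symm hxy)⟩)
    (fun x hx => ⟨_, hBV _ hx.2, by rw [← J_G1]; exact hx.1⟩) with ⟨f, hf⟩ | ⟨g, h1, h2, h3⟩
  · left
    refine ⟨fun n => (Pr (f n).1, (f n).2), fun x hx => ?_⟩
    obtain ⟨n, hn⟩ := hf (J x.1, x.2) ⟨rfl, hx⟩
    exact ⟨n, uiso_sy ((key _ _ (uiso_symm hn) rfl).2)⟩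
  · right
    refine ⟨fun c => (Pr (g c).1, (g c).2), hc.comp h1, fun c => (h2 c).2, fun c d hcd => ?_⟩
    apply h3
    have h4 := iso_J hcd
    have h5 : ((J (Pr (g c).1), (g c).2) : US A2) = g c := by rw [← (h2 c).1]
    have h6 : ((J (Pr (g d).1), (g d).2) : US A2) = g d := by rw [← (h2 d).1]
    have h7 : Pool.Agent.H533R2.VS.UIso (a := A2) (J (Pr (g c).1), (g c).2)
        (J (Pr (g d).1), (g d).2) := h4
    rwa [h5, h6] at h7

/-! ### forbidden tournaments -/

/-- `H` is isomorphic to a subtournament of `E`. -/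
def Embeds {n : ℕ} (H : Fin n → Fin n → Prop) {V : Type} (E : V → V → Prop) : Prop :=
  ∃ f : Fin n → V, Function.Injective f ∧ ∀ i j, H i j ↔ E (f i) (f j)

/-- The finite structures without `H`. -/
def Free {m : ℕ} (H : Fin m → Fin m → Prop) : (n : ℕ) → (Fin n → Fin n → Prop) → Prop :=
  fun _ E => ¬ Embeds H E

theorem locally_free {m : ℕ} {H : Fin m → Fin m → Prop} {E : ℕ → ℕ → Prop} :
    LocallyIn (Free H) E ↔ HFree H E := by
  refine and_congr Iff.rfl ⟨fun h => ?_, fun h => ?_⟩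
  · rintro ⟨f, h1, h2⟩
    exact h m f h1 ⟨id, Function.injective_id, h2⟩
  · rintro n f hf ⟨g, h1, h2⟩
    exact h ⟨fun i => f (g i), hf.comp h1, h2⟩

theorem patterns_free {m : ℕ} {H : Fin m → Fin m → Prop} {s : Sg}
    (h : ∀ (n : ℕ) (π : Equiv.Perm (Fin n)), ¬ Embeds H (matchT s π)) : HasPatterns (Free H) := by
  refine ⟨s, fun n π k f hf => ?_⟩
  rintro ⟨g, h1, h2⟩
  exact h n π ⟨fun i => f (g i), hf.comp h1, h2⟩

/-- The regular tournament on five vertices. -/
def Regular5 (i j : Fin 5) : Prop := j = i + 1 ∨ j = i + 2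

instance (i j : Fin 5) : Decidable (Regular5 i j) := inferInstanceAs (Decidable (_ ∨ _))

/-- the check -/
def bad5 (s : Fin 5 → Bool) (i j k : Fin 5) : Bool :=
  (s i == s j && s j == s k && decide (Regular5 i j) && decide (Regular5 j k) &&
    decide (Regular5 k i)) ||
  (!s i && s j && s k && decide (j ≠ k) && decide (Regular5 j i) && decide (Regular5 k i)) ||
  (!s i && !s j && s k && decide (i ≠ j) && decide (Regular5 k i) && decide (Regular5 k j))

theorem bad5_cases : ∀ s0 s1 s2 s3 s4 : Bool, ∃ i j k, bad5 ![s0, s1, s2, s3, s4] i j k = true := by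
  decide

theorem regular5_not (n : ℕ) (π : Equiv.Perm (Fin n)) : ¬ Embeds Regular5 (matchT .ne π) := by
  rintro ⟨f, hf, h⟩
  obtain ⟨i, j, k, hb⟩ := bad5_cases (f 0).isRight (f 1).isRight (f 2).isRight (f 3).isRight
    (f 4).isRight
  have hs : (![(f 0).isRight, (f 1).isRight, (f 2).isRight, (f 3).isRight, (f 4).isRight] :
      Fin 5 → Bool) = fun i => (f i).isRight := by
    funext i
    fin_cases i <;> rfl
  rw [hs] at hb
  simp only [bad5, Bool.or_eq_true, Bool.and_eq_true, decide_eq_true_eq, beq_iff_eq,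
    Bool.not_eq_true'] at hb
  rcases hb with (⟨⟨⟨⟨h1, h2⟩, h3⟩, h4⟩, h5⟩ | ⟨⟨⟨⟨⟨h1, h2⟩, h3⟩, h4⟩, h5⟩, h6⟩) |
    ⟨⟨⟨⟨⟨h1, h2⟩, h3⟩, h4⟩, h5⟩, h6⟩
  · rw [h] at h3 h4 h5
    rcases hi : f i with x | x <;> rcases hj : f j with y | y <;> rcases hk : f k with z | z <;>
      rw [hi, hj] at h1 h3 <;> rw [hj, hk] at h2 h4 <;> rw [hk, hi] at h5 <;>
      simp only [Sum.isRight_inl, Sum.isRight_inr, Bool.false_eq_true, reduceCtorEq] at h1 h2 <;>
      simp only [matchT] at h3 h4 h5 <;>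
      exact lt_irrefl _ ((h3.trans h4).trans h5)
  · rw [h] at h5 h6
    rcases hi : f i with x | x <;> rcases hj : f j with y | y <;> rcases hk : f k with z | z <;>
      rw [hi] at h1 h5 h6 <;> rw [hj] at h2 h5 <;> rw [hk] at h3 h6 <;>
      simp only [Sum.isRight_inl, Sum.isRight_inr, Bool.false_eq_true, reduceCtorEq] at h1 h2 h3
    simp only [matchT, Sg.entry, not_not] at h5 h6
    refine h4 (hf ?_)
    rw [hj, hk, ← h5, ← h6]
  · rw [h] at h5 h6
    rcases hi : f i with x | x <;> rcases hj : f j with y | y <;> rcases hk : f k with z | z <;>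
      rw [hi] at h1 h5 <;> rw [hj] at h2 h6 <;> rw [hk] at h3 h5 h6 <;>
      simp only [Sum.isRight_inl, Sum.isRight_inr, Bool.false_eq_true, reduceCtorEq] at h1 h2 h3
    simp only [matchT, Sg.entry, not_not] at h5 h6
    refine h4 (hf ?_)
    rw [hi, hj, π.injective (h5.trans h6.symm)]

end Pool.Agent.Y561.TO
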