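import Pool.Agent.Y561.TO.Tab
import Pool.Agent.TH783.OT.EmbO

set_option autoImplicit false

/-! Tournaments: the patterns, and the finite parts of the coded structures. -/

namespace Pool.Agent.Y561.TO

open Pool.Agent.W889.VC (DLO)
open Pool.Agent.TH783.OT (Tk Tab Dc SL SL.of_dlo perm_of W)

/-- `E` is a tournament. -/
structure IsTournament {V : Type} (E : V → V → Prop) : Prop where
  irrefl : ∀ x, ¬ E x x
  asymm : ∀ x y, E x y → ¬ E y x
  total : ∀ x y, x ≠ y → E x y ∨ E y x

/-- `𝒞` contains all finite induced substructures of `(V, E)` (with all numberings of the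
vertices). -/
def Contains (𝒞 : (n : ℕ) → (Fin n → Fin n → Prop) → Prop) {V : Type} (E : V → V → Prop) : Prop :=
  ∀ (n : ℕ) (f : Fin n → V), Function.Injective f → 𝒞 n (fun i j => E (f i) (f j))

/-- The entry of the encoded matrix of the permutation `π` in row `i` and column `j`. -/
def Sg.entry {n : ℕ} (s : Sg) (π : Equiv.Perm (Fin n)) (i j : Fin n) : Prop := match s with
  | .ne => π i ≠ j
  | .le => π i ≤ j
  | .ge => j ≤ π i

/-- The tournament `T_s(π)`: the rows and the columns form two transitive tournaments (in the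
natural orders), and the row `i` dominates the column `j` if the entry is `1`, otherwise the column
`j` dominates the row `i`. -/
def matchT (s : Sg) {n : ℕ} (π : Equiv.Perm (Fin n)) :
    Fin n ⊕ Fin n → Fin n ⊕ Fin n → Prop
  | .inl i, .inl j => i < j
  | .inr i, .inr j => i < j
  | .inl i, .inr j => s.entry π i j
  | .inr j, .inl i => ¬ s.entry π i j

/-- For one of the three families, `𝒞` contains all its members and their subtournaments. -/
def HasPatterns (𝒞 : (n : ℕ) → (Fin n → Fin n → Prop) → Prop) : Prop :=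
  ∃ s : Sg, ∀ (n : ℕ) (π : Equiv.Perm (Fin n)), Contains 𝒞 (matchT s π)

/-- `(ℕ, E)` is a tournament all of whose finite subtournaments belong to `𝒞`. -/
def LocallyIn (𝒞 : (n : ℕ) → (Fin n → Fin n → Prop) → Prop) (E : ℕ → ℕ → Prop) : Prop :=
  IsTournament E ∧ Contains 𝒞 E

/-- two further elements -/
def Lx {Q : Type} (l : Q → Q → Prop) (ρ : Bool → ℤ) : Q ⊕ Bool → Q ⊕ Bool → Prop
  | .inl x, .inl y => l x y
  | .inl _, .inr i => 0 < ρ i
  | .inr i, .inl _ => ρ i < 0
  | .inr i, .inr j => ρ i < ρ j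

theorem sl_lx {Q : Type} {l : Q → Q → Prop} (h : SL l) {ρ : Bool → ℤ} (h0 : ∀ i, ρ i ≠ 0)
    (h1 : ρ false ≠ ρ true) : SL (Lx l ρ) where
  irrefl := by
    rintro (x | i) h2
    · exact h.irrefl x h2
    · exact lt_irrefl _ h2
  trans := by
    rintro (x | i) (y | j) (z | k) h2 h3 <;> simp only [Lx] at h2 h3 ⊢
    · exact h.trans _ _ _ h2 h3
    · exact h3
    · omega
    · omega
    · exact h2
    · omega
    · omega
    · omega
  total := by
    rintro (x | i) (y | j) h2 <;> simp only [Lx]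
    · exact h.total x y fun e => h2 (by rw [e])
    · have := h0 j
      omega
    · have := h0 i
      omega
    · rcases i with _ | _ <;> rcases j with _ | _
      · exact absurd rfl h2
      · omega
      · omega
      · exact absurd rfl h2

section

variable {Q : Type}

def rk1 : Bool → ℤ
  | true => 1
  | false => 2

def Sg.rk2 : Sg → Bool → ℤ
  | .ge, true => -1
  | .ge, false => 1
  | _, true => 1
  | _, false => -1

/-- the point -/
def Sg.pt (s : Sg) : Tk Q → Q ⊕ Bool
  | .p _ q => .inl q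
  | .s true => .inr true
  | .s false => match s with
    | .ne => .inr true
    | _ => .inr false

/-- the side -/
def Sg.sd (s : Sg) : Tk Q → Bool
  | .p k _ => k
  | .s false => false
  | .s true => match s with
    | .ne => true
    | _ => false

theorem ptsd {s : Sg} {u v : Tk Q} (h1 : s.pt u = s.pt v) (h2 : s.sd u = s.sd v) : u = v := by
  cases s <;> rcases u with ⟨k, x⟩ | _ | _ <;> rcases v with ⟨k', y⟩ | _ | _ <;>
    simp [Sg.pt, Sg.sd] at h1 h2 ⊢ <;> exact ⟨h2, h1⟩

variable {o1 o2 : Q → Q → Prop} {s : Sg}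

theorem sy_iff (u v : Tk Q) : (tabT s).SY o1 o2 () u v ↔ match s.sd u, s.sd v with
    | false, false => Lx o1 rk1 (s.pt u) (s.pt v)
    | true, true => Lx o2 s.rk2 (s.pt u) (s.pt v)
    | false, true => s.cr (Lx o1 rk1 (s.pt u) (s.pt v)) (Lx o1 rk1 (s.pt v) (s.pt u))
        (Lx o2 s.rk2 (s.pt u) (s.pt v)) (Lx o2 s.rk2 (s.pt v) (s.pt u)) (s.pt u = s.pt v)
    | true, false => ¬ s.cr (Lx o1 rk1 (s.pt v) (s.pt u)) (Lx o1 rk1 (s.pt u) (s.pt v))
        (Lx o2 s.rk2 (s.pt v) (s.pt u)) (Lx o2 s.rk2 (s.pt u) (s.pt v)) (s.pt u = s.pt v) := by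
  cases s <;> rcases u with ⟨_ | _, x⟩ | _ | _ <;> rcases v with ⟨_ | _, y⟩ | _ | _ <;>
    simp [Tab.SY, tabT, Lx, Sg.sd, Sg.pt, Sg.cr, Sg.rk2, rk1]

theorem rk1_ne : ∀ i, rk1 i ≠ 0 := by
  rintro (_ | _) <;> simp [rk1]

theorem rk2_ne (s : Sg) : ∀ i, s.rk2 i ≠ 0 := by
  rintro (_ | _) <;> cases s <;> simp [Sg.rk2]

theorem rk2_ne' (s : Sg) : s.rk2 false ≠ s.rk2 true := by
  cases s <;> simp [Sg.rk2]

/-- the entries of the matrix of a permutation of a finite set of points -/
theorem entry_iff {l1 l2 : Q → Q → Prop} (s : Sg) {N n : ℕ}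
    {π : Equiv.Perm (Fin N)}
    {a : Fin n → Fin N} {p : Fin n → Q} (h0 : ∀ i j, a i = a j ↔ p i = p j)
    (h2 : ∀ i j, π (a i) < π (a j) ↔ l2 (p i) (p j))
    (i j : Fin n) : s.cr (l1 (p i) (p j)) (l1 (p j) (p i)) (l2 (p i) (p j)) (l2 (p j) (p i))
      (p i = p j) ↔ s.entry π (a i) (π (a j)) := by
  cases s
  · show ¬ p i = p j ↔ π (a i) ≠ π (a j)
    rw [π.injective.ne_iff, ← h0]
  · show ¬ l2 (p j) (p i) ↔ π (a i) ≤ π (a j)
    rw [← h2, not_lt]
  · show ¬ l2 (p i) (p j) ↔ π (a j) ≤ π (a i)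
    rw [← h2, not_lt]

/-- finite parts of the coded structures -/
theorem emb_match (h1 : DLO o1) (h2 : DLO o2) (s : Sg) {n : ℕ}
    (g : Fin n → Tk Q) (hg : Function.Injective g) :
    ∃ (N : ℕ) (π : Equiv.Perm (Fin N)) (h : Fin n → Fin N ⊕ Fin N), Function.Injective h ∧
      ∀ i j, (tabT s).SY o1 o2 () (g i) (g j) ↔ matchT s π (h i) (h j) := by
  obtain ⟨N, π, a, k0, k1, k2⟩ := perm_of (sl_lx (SL.of_dlo h1) rk1_ne (by simp [rk1]))
    (sl_lx (SL.of_dlo h2) (rk2_ne s) (rk2_ne' s)) (fun i => s.pt (g i))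
  let h : Fin n → Fin N ⊕ Fin N := fun i => match s.sd (g i) with
    | false => .inl (a i)
    | true => .inr (π (a i))
  have hf : ∀ i, s.sd (g i) = false → h i = .inl (a i) := by
    intro i hi
    simp only [h, hi]
  have ht : ∀ i, s.sd (g i) = true → h i = .inr (π (a i)) := by
    intro i hi
    simp only [h, hi]
  refine ⟨N, π, h, fun i j hij => ?_, fun i j => ?_⟩
  · cases hi : s.sd (g i) <;> cases hj : s.sd (g j)
    · rw [hf i hi, hf j hj] at hij
      exact hg (ptsd ((k0 i j).1 (by simpa using hij)) (hi.trans hj.symm))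
    · rw [hf i hi, ht j hj] at hij
      cases hij
    · rw [ht i hi, hf j hj] at hij
      cases hij
    · rw [ht i hi, ht j hj] at hij
      exact hg (ptsd ((k0 i j).1 (by simpa using hij)) (hi.trans hj.symm))
  · rw [sy_iff]
    cases hi : s.sd (g i) <;> cases hj : s.sd (g j) <;> simp only
    · rw [hf i hi, hf j hj]
      exact (k1 i j).symm
    · rw [hf i hi, ht j hj]
      exact entry_iff s k0 k2 i j
    · rw [ht i hi, hf j hj]
      show _ ↔ ¬ s.entry π (a j) (π (a i))
      rw [← entry_iff (l1 := Lx o1 rk1) s k0 k2 j i, eq_comm]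
    · rw [ht i hi, ht j hj]
      exact (k2 i j).symm

theorem isT_sy (h1 : DLO o1) (h2 : DLO o2) (s : Sg) : IsTournament ((tabT s).SY o1 o2 ()) := by
  have m1 := sl_lx (SL.of_dlo h1) rk1_ne (by simp [rk1])
  have m2 := sl_lx (SL.of_dlo h2) (rk2_ne s) (rk2_ne' s)
  refine ⟨fun u h3 => ?_, fun u v h3 h4 => ?_, fun u v hne => ?_⟩
  · rw [sy_iff] at h3
    cases hu : s.sd u <;> simp only [hu] at h3
    · exact m1.irrefl _ h3
    · exact m2.irrefl _ h3
  · rw [sy_iff] at h3 h4
    cases hu : s.sd u <;> cases hv : s.sd v <;> simp only [hu, hv] at h3 h4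
    · exact m1.asymm h3 h4
    · exact h4 (by rw [eq_comm]; exact h3)
    · exact h3 (by rw [eq_comm]; exact h4)
    · exact m2.asymm h3 h4
  · rw [sy_iff, sy_iff]
    cases hu : s.sd u <;> cases hv : s.sd v <;> simp only
    · exact m1.total _ _ fun h => hne (ptsd h (hu.trans hv.symm))
    · rw [eq_comm (a := s.pt v)]
      exact em _
    · rw [eq_comm (a := s.pt v)]
      exact (em _).symm
    · exact m2.total _ _ fun h => hne (ptsd h (hu.trans hv.symm))

end

/-- the coded structures belong locally to the class -/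
theorem locally_match {𝒞 : (n : ℕ) → (Fin n → Fin n → Prop) → Prop} {s : Sg}
    (hC : ∀ (n : ℕ) (π : Equiv.Perm (Fin n)), Contains 𝒞 (matchT s π)) {X : Unit → ℕ → ℕ → Prop}
    (hX : W (tabT s) (dcT s) X) : LocallyIn 𝒞 (X ()) := by
  obtain ⟨Q, _, _, o1, o2, h1, h2, e, he⟩ := hX.std
  have hT := isT_sy h1 h2 s
  refine ⟨⟨fun x h => ?_, fun x y h h' => ?_, fun x y h => ?_⟩, fun n f hf => ?_⟩
  · exact hT.irrefl _ ((he () x x).1 h)
  · exact hT.asymm _ _ ((he () x y).1 h) ((he () y x).1 h')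
  · rw [he, he]
    exact hT.total _ _ fun h' => h (e.injective h')
  · obtain ⟨N, π, h, k1, k2⟩ := emb_match h1 h2 s (fun i => e (f i)) (e.injective.comp hf)
    have h3 := hC N π n h k1
    convert h3 using 1
    funext i j
    exact propext ((he () _ _).trans (k2 i j))

end Pool.Agent.Y561.TO
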