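import Pool.Agent.Y561.TO.Emb
import Pool.Agent.W875.MR.Param
import Pool.Agent.W875.MR.Cls

set_option autoImplicit false

/-! Locally transitive tournaments and linear orders. -/

namespace Pool.Agent.Y561.TO

open Set
open Pool.Agent.H533R2.VO (RS)
open Pool.Agent.H533R2.VS (act p2 VCu US UIso)
open Pool.Agent.W875.MR

/-- a cyclic triangle -/
def Cyc {V : Type} (E : V → V → Prop) (a b c : V) : Prop := E a b ∧ E b c ∧ E c a

/-- Locally transitive tournaments: no cyclic triangle is dominated by a vertex or dominates a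
vertex. -/
structure LT {V : Type} (E : V → V → Prop) : Prop where
  tour : IsTournament E
  out : ∀ v a b c, E v a → E v b → E v c → ¬ Cyc E a b c
  inn : ∀ v a b c, E a v → E b v → E c v → ¬ Cyc E a b c

section code

variable {E : ℕ → ℕ → Prop}

/-- the part of the base point -/
def Pp (E : ℕ → ℕ → Prop) (r u : ℕ) : Prop := u = r ∨ E r u

/-- the order -/
def Lo (E : ℕ → ℕ → Prop) (r x y : ℕ) : Prop := x ≠ y ∧ (E x y ↔ (Pp E r x ↔ Pp E r y))

theorem no3 (h : LT E) {r x y z : ℕ} (hP : Pp E r x ↔ Pp E r y) (h1 : Lo E r x y)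
    (h2 : Lo E r y z) (h3 : Lo E r z x) : False := by
  have a1 := h.tour.asymm
  have a2 := h.tour.irrefl
  have xy : E x y := h1.2.2 hP
  by_cases hz : Pp E r x ↔ Pp E r z
  · -- all in the same part
    have yz : E y z := h2.2.2 (hP.symm.trans hz)
    have zx : E z x := h3.2.2 hz.symm
    by_cases hx : Pp E r x
    · have hy := hP.1 hx
      have hz' := hz.1 hx
      rcases hx with rfl | hx
      · rcases hz' with rfl | hz'
        · exact h3.1 rfl
        · exact a1 _ _ zx hz'
      · rcases hy with rfl | hy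
        · exact a1 _ _ xy hx
        · rcases hz' with rfl | hz'
          · exact a1 _ _ yz hy
          · exact h.out r x y z hx hy hz' ⟨xy, yz, zx⟩
    · have key : ∀ w, ¬ Pp E r w → E w r := by
        intro w hw
        rcases h.tour.total w r fun e => hw (Or.inl e) with h4 | h4
        · exact h4
        · exact absurd (Or.inr h4) hw
      exact h.inn r x y z (key _ hx) (key _ fun h => hx (hP.2 h)) (key _ fun h => hx (hz.2 h))
        ⟨xy, yz, zx⟩
  · have nyz : ¬ E y z := fun e => hz (hP.trans (h2.2.1 e))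
    have nzx : ¬ E z x := fun e => hz (h3.2.1 e).symm
    have zy : E z y := (h.tour.total y z h2.1).resolve_left nyz
    have xz : E x z := (h.tour.total z x h3.1).resolve_left nzx
    have key : ∀ w, ¬ Pp E r w → E w r := by
      intro w hw
      rcases h.tour.total w r fun e => hw (Or.inl e) with h4 | h4
      · exact h4
      · exact absurd (Or.inr h4) hw
    by_cases hx : Pp E r x
    · have hy := hP.1 hx
      have hz' : ¬ Pp E r z := fun h => hz ⟨fun _ => h, fun _ => hx⟩
      have zr := key z hz'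
      rcases hx with rfl | hx
      · exact a1 _ _ xz zr
      · rcases hy with rfl | hy
        · exact a1 _ _ xy hx
        · exact h.inn y x z r xy zy hy ⟨xz, zr, hx⟩
    · have hy : ¬ Pp E r y := fun h => hx (hP.2 h)
      have hz' : Pp E r z := by
        by_contra h4
        exact hz ⟨fun h => absurd h hx, fun h => absurd h h4⟩
      rcases hz' with rfl | hz'
      · exact a1 _ _ zy (key y hy)
      · exact h.out x z y r xz xy (key x hx) ⟨zy, key y hy, hz'⟩

theorem Lo.tot (h : LT E) {r x y : ℕ} (hne : x ≠ y) : Lo E r x y ∨ Lo E r y x := by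
  have h1 : E y x ↔ ¬ E x y :=
    ⟨fun h1 h2 => h.tour.asymm _ _ h1 h2, fun h1 => (h.tour.total x y hne).resolve_left h1⟩
  unfold Lo
  rw [h1]
  by_cases h2 : E x y <;> by_cases h3 : Pp E r x <;> by_cases h4 : Pp E r y <;>
    simp [h2, h3, h4, hne, hne.symm]

theorem Lo.asy (h : LT E) {r x y : ℕ} (h1 : Lo E r x y) : ¬ Lo E r y x := by
  rintro h2
  have h3 : E y x ↔ ¬ E x y :=
    ⟨fun h1 h2 => h.tour.asymm _ _ h1 h2, fun h3 => (h.tour.total x y h1.1).resolve_left h3⟩
  have h4 := h1.2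
  have h5 := h2.2
  rw [h3] at h5
  tauto

theorem Lo.tr (h : LT E) {r x y z : ℕ} (h1 : Lo E r x y) (h2 : Lo E r y z) : Lo E r x z := by
  by_cases hxz : x = z
  · subst hxz
    exact (Lo.asy h h1 h2).elim
  · rcases Lo.tot h (r := r) hxz with h3 | h3
    · exact h3
    · exfalso
      by_cases c1 : Pp E r x ↔ Pp E r y
      · exact no3 h c1 h1 h2 h3
      · by_cases c2 : Pp E r y ↔ Pp E r z
        · exact no3 h c2 h2 h3 h1
        · refine no3 h ?_ h3 h1 h2
          by_cases b1 : Pp E r x <;> by_cases b2 : Pp E r y <;> by_cases b3 : Pp E r z <;>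
            simp [b1, b2, b3] at c1 c2 ⊢

theorem Lo.min {r x : ℕ} (hx : x ≠ r) : Lo E r r x := by
  refine ⟨hx.symm, ?_⟩
  unfold Pp
  simp [hx]

end code

/-- the relation as a structure -/
noncomputable def G1 (E : ℕ → ℕ → Prop) : RS A2 := S3 E (fun _ _ => False) (fun _ _ => False)

/-- the codes -/
structure CC (L : ℕ → ℕ → Prop) (R Q : ℕ → Prop) : Prop where
  irr : ∀ u, ¬ L u u
  tr : ∀ u v w, L u v → L v w → L u w
  tot : ∀ u v, L u v ∨ u = v ∨ L v u
  rex : ∃ r, R r
  run : ∀ r r', R r → R r' → r = r'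
  rq : ∀ r, R r → Q r
  rmin : ∀ r u, R r → u ≠ r → L r u

/-- the class of codes -/
def Wt : Set (RS b1) := {z | CC (r2 z 0) (r1 z 1) (r1 z 2) ∧ ∀ i t, 3 ≤ i → z i t = false}

/-- decoding -/
noncomputable def dt (z : RS b1) : RS (P A2) :=
  pt' (r1 z 1) (G1 fun u v => u ≠ v ∧ (r2 z 0 u v ↔ (r1 z 2 u ↔ r1 z 2 v)))

theorem CC.comap {L : ℕ → ℕ → Prop} {R Q : ℕ → Prop} (h : CC L R Q) (σ : Equiv.Perm ℕ) :
    CC (fun u v => L (σ u) (σ v)) (fun u => R (σ u)) (fun u => Q (σ u)) := by
  refine ⟨fun u => h.irr _, fun u v w => h.tr _ _ _, fun u v => ?_, ?_,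
    fun r r' h1 h2 => σ.injective (h.run _ _ h1 h2), fun r h1 => h.rq _ h1,
    fun r u h1 h2 => h.rmin _ _ h1 fun e => h2 (σ.injective e)⟩
  · rcases h.tot (σ u) (σ v) with h1 | h1 | h1
    · exact Or.inl h1
    · exact Or.inr (Or.inl (σ.injective h1))
    · exact Or.inr (Or.inr h1)
  · obtain ⟨r, hr⟩ := h.rex
    refine ⟨σ.symm r, ?_⟩
    rw [σ.apply_symm_apply]
    exact hr

theorem Wt_act (σ : Equiv.Perm ℕ) (z : RS b1) (hz : z ∈ Wt) : act σ z ∈ Wt := by
  refine ⟨?_, fun i t hi => hz.2 i _ hi⟩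
  have h := CC.comap hz.1 σ.symm
  have e : r2 (act σ z) 0 = fun u v => r2 z 0 (σ.symm u) (σ.symm v) := by
    funext u v
    exact r2_act σ z 0 u v
  rw [e]
  exact h

theorem me_CC {X : Type} [MeasurableSpace X] {L : X → ℕ → ℕ → Prop} {R Q : X → ℕ → Prop}
    (hL : ∀ u v, Measurable fun z => L z u v) (hR : ∀ u, Measurable fun z => R z u)
    (hQ : ∀ u, Measurable fun z => Q z u) : Measurable fun z => CC (L z) (R z) (Q z) := by
  have h : (fun z => CC (L z) (R z) (Q z)) = fun z =>
      (∀ u, ¬ L z u u) ∧ (∀ u v w, L z u v → L z v w → L z u w) ∧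
      (∀ u v, L z u v ∨ u = v ∨ L z v u) ∧ (∃ r, R z r) ∧ (∀ r r', R z r → R z r' → r = r') ∧
      (∀ r, R z r → Q z r) ∧ ∀ r u, R z r → u ≠ r → L z r u := by
    funext z
    apply propext
    constructor
    · rintro ⟨h1, h2, h3, h4, h5, h6, h7⟩
      exact ⟨h1, h2, h3, h4, h5, h6, h7⟩
    · rintro ⟨h1, h2, h3, h4, h5, h6, h7⟩
      exact ⟨h1, h2, h3, h4, h5, h6, h7⟩
  rw [h]
  refine Measurable.and ?_ (Measurable.and ?_ (Measurable.and ?_ (Measurable.and ?_
    (Measurable.and ?_ (Measurable.and ?_ ?_)))))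
  · exact Measurable.forall fun u => (hL _ _).not
  · exact Measurable.forall fun u => Measurable.forall fun v => Measurable.forall fun w =>
      (hL _ _).imp ((hL _ _).imp (hL _ _))
  · exact Measurable.forall fun u => Measurable.forall fun v =>
      (hL _ _).or ((me_const _).or (hL _ _))
  · exact Measurable.exists fun p => hR _
  · exact Measurable.forall fun p => Measurable.forall fun q => (hR _).imp ((hR _).imp (me_const _))
  · exact Measurable.forall fun p => (hR _).imp (hQ _)
  · exact Measurable.forall fun p => Measurable.forall fun u => (hR _).imp ((me_const _).imp (hL _ _))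

theorem Wt_meas : MeasurableSet Wt := by
  refine MeasurableSet.inter (measurableSet_setOfPred.2 (me_CC (fun u v => me_r2 0 u v)
    (fun u => me_r1 1 u) (fun u => me_r1 2 u))) ?_
  have e : {z : RS b1 | ∀ i t, 3 ≤ i → z i t = false} = ⋂ i, ⋂ t, {z | 3 ≤ i → z i t = false} := by
    ext z
    simp
  show MeasurableSet {z : RS b1 | ∀ i t, 3 ≤ i → z i t = false}
  rw [e]
  refine MeasurableSet.iInter fun i => MeasurableSet.iInter fun t => ?_
  by_cases hi : 3 ≤ i
  · simp only [hi, true_implies]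
    exact (isClosed_eq ((continuous_apply t).comp (continuous_apply i))
      continuous_const).measurableSet
  · simp only [hi, false_implies]
    exact MeasurableSet.univ

/-- classes of linear orders with unary predicates -/
theorem vcu_lin {W : Set (RS b1)} (h : ∀ z ∈ W, (∀ u, ¬ r2 z 0 u u) ∧
    (∀ u v w, r2 z 0 u v → r2 z 0 v w → r2 z 0 u w) ∧ ∀ u v, r2 z 0 u v ∨ u = v ∨ r2 z 0 v u) :
    VCu fun z => z ∈ W := by
  refine vcu_mono (Pool.Agent.H533R2.VS.vs_ord b1 0 rfl (fun _ => False) vcu_false) ?_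
  intro z hz
  obtain ⟨irr, tr, tot⟩ := h z hz
  have hf : ∀ u v, ¬ r2 z 0 u v → z 0 (p2 u v) = false := by
    intro u v h1
    unfold r2 at h1
    exact Bool.eq_false_iff.2 h1
  refine ⟨fun u => hf u u (irr u), fun u v w => tr u v w, ?_, ?_, ?_⟩
  · intro u v w h1
    rcases tot u v with h2 | rfl | h2
    · exact Or.inl h2
    · exact Or.inr h1
    · exact Or.inr (tr _ _ _ h2 h1)
  · intro i hi t _ j l
    obtain ⟨k, rfl⟩ : ∃ k, i = k + 1 := ⟨i - 1, by omega⟩
    have : j = l := Subsingleton.elim (α := Fin 1) j l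
    rw [this]
    exact hf _ _ (irr _)
  · intro u e he h1
    have key : ∀ n, e n = u := by
      intro n
      have h2 := (h1 (e n)).2 ⟨n, rfl⟩
      rcases tot (e n) u with h3 | h3 | h3
      · exact absurd (show z 0 (p2 (e n) u) = true from h3) (by rw [h2.1]; simp)
      · exact h3
      · exact absurd (show z 0 (p2 u (e n)) = true from h3) (by rw [h2.2]; simp)
    exact absurd (he ((key 0).trans (key 1).symm)) (by norm_num)

theorem Wt_vcu : VCu fun z => z ∈ Wt :=
  vcu_lin fun _ hz => ⟨hz.1.irr, hz.1.tr, hz.1.tot⟩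

theorem me_dt : Measurable dt := by
  refine me_pt' (fun u => me_r1 1 u) (me_S3 (fun u v => ?_) (fun _ _ => me_const _)
    fun _ _ => me_const _)
  exact (me_const _).and ((me_r2 _ _ _).iff ((me_r1 _ _).iff (me_r1 _ _)))

theorem dt_act (σ : Equiv.Perm ℕ) (z : RS b1) : dt (act σ z) = act σ (dt z) := by
  unfold dt G1
  rw [← pt'_act, ← S3_act]
  congr 1
  congr 1
  funext u v
  rw [r2_act, r1_act, r1_act, σ.symm.injective.ne_iff]

/-- structures are determined by their relations -/
theorem ext_b1 {z z' : RS b1} (h0 : r2 z 0 = r2 z' 0) (h1 : ∀ i, r1 z (i + 1) = r1 z' (i + 1)) :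
    z = z' := by
  funext i t
  match i with
  | 0 =>
    have ht : (p2 (t 0) (t 1) : Fin 2 → ℕ) = t := p2_eta t
    have h2 := congrFun (congrFun h0 (t 0)) (t 1)
    unfold r2 at h2
    rw [← ht, Bool.eq_iff_iff]
    exact Iff.of_eq h2
  | i + 1 =>
    have ht : (fun _ => t 0 : Fin 1 → ℕ) = t := by
      funext j
      rw [Subsingleton.elim j 0]
    have h2 := congrFun (h1 i) (t 0)
    unfold r1 at h2
    rw [← ht, Bool.eq_iff_iff]
    exact Iff.of_eq h2

theorem dt_inj : ∀ z ∈ Wt, ∀ z' ∈ Wt, dt z = dt z' → z = z' := by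
  intro z hz z' hz' h
  obtain ⟨h1, h2⟩ := pt'_inj h
  obtain ⟨h3, -, -⟩ := S3_inj h2
  obtain ⟨r, hr⟩ := hz.1.rex
  have hr' : r1 z' 1 r := by
    rw [← h1]
    exact hr
  have hE : ∀ u v, u ≠ v → ((r2 z 0 u v ↔ (r1 z 2 u ↔ r1 z 2 v)) ↔
      (r2 z' 0 u v ↔ (r1 z' 2 u ↔ r1 z' 2 v))) := by
    intro u v huv
    have h4 := congrFun (congrFun h3 u) v
    simpa [huv] using h4
  have hQ : ∀ u, r1 z 2 u ↔ r1 z' 2 u := by
    intro u
    by_cases hu : u = r
    · subst hu
      exact iff_of_true (hz.1.rq _ hr) (hz'.1.rq _ hr')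
    · have h4 := hE r u fun e => hu e.symm
      have h5 := hz.1.rmin r u hr hu
      have h6 := hz'.1.rmin r u hr' hu
      have h7 := hz.1.rq _ hr
      have h8 := hz'.1.rq _ hr'
      tauto
  have hL : r2 z 0 = r2 z' 0 := by
    funext u v
    refine propext ?_
    by_cases huv : u = v
    · subst huv
      exact iff_of_false (hz.1.irr u) (hz'.1.irr u)
    · have h4 := hE u v huv
      rw [hQ u, hQ v] at h4
      tauto
  refine ext_b1 hL fun i => ?_
  match i with
  | 0 => exact h1
  | 1 => exact funext fun u => propext (hQ u)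
  | i + 2 =>
    funext u
    unfold r1
    rw [hz.2 (i + 2 + 1) _ (by omega), hz'.2 (i + 2 + 1) _ (by omega)]

/-- Vaught's conjecture for locally transitive tournaments. -/
theorem vcu_LT : VCu fun x : RS A2 => ∃ E, LT E ∧ x = G1 E := by
  refine param _ (fun y => ∃ z ∈ Wt, dt z = y) ?_ (push Wt Wt_meas Wt_act dt me_dt dt_act dt_inj
    Wt_vcu)
  rintro _ ⟨E, h, rfl⟩ r
  let z : RS b1 := fun i => match i with
    | 0 => fun t => dcd (Lo E r (t 0) (t 1))
    | 1 => fun t => dcd (t 0 = r)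
    | 2 => fun t => dcd (Pp E r (t 0))
    | _ + 3 => fun _ => false
  have e0 : r2 z 0 = Lo E r := by
    funext u v
    unfold r2
    refine propext ?_
    show dcd (Lo E r (p2 u v (0 : Fin 2)) (p2 u v (1 : Fin 2))) = true ↔ _
    rw [dcd_iff]
    simp [p2]
  have e1 : r1 z 1 = fun u => u = r := by
    funext u
    exact propext dcd_iff
  have e2 : r1 z 2 = Pp E r := by
    funext u
    exact propext dcd_iff
  refine ⟨z, ⟨?_, ?_⟩, ?_⟩
  · rw [e0, e1, e2]
    refine ⟨fun u h1 => h1.1 rfl, fun u v w => Lo.tr h, fun u v => ?_, ⟨r, rfl⟩, ?_, ?_, ?_⟩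
    · by_cases huv : u = v
      · exact Or.inr (Or.inl huv)
      · rcases Lo.tot h (r := r) huv with h1 | h1
        · exact Or.inl h1
        · exact Or.inr (Or.inr h1)
    · rintro _ _ rfl rfl
      rfl
    · rintro _ rfl
      exact Or.inl rfl
    · rintro _ u rfl hu
      exact Lo.min hu
  · intro i t hi
    obtain ⟨k, rfl⟩ : ∃ k, i = k + 3 := ⟨i - 3, by omega⟩
    rfl
  · unfold dt
    rw [e0, e1, e2, pt'_eq]
    congr 1
    congr 1
    funext u v
    refine propext ?_
    unfold Lo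
    constructor
    · rintro ⟨h1, h2⟩
      tauto
    · intro h1
      have huv : u ≠ v := by
        rintro rfl
        exact h.tour.irrefl _ h1
      refine ⟨huv, ?_⟩
      by_cases b1 : Pp E r u <;> by_cases b2 : Pp E r v <;> simp [b1, b2, h1, huv]

end Pool.Agent.Y561.TO
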