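import Pool.Agent.Y561.TO.Emb

set_option autoImplicit false

/-! Tournaments: the reductions. -/

namespace Pool.Agent.Y561.TO

open FirstOrder FirstOrder.Language
open Pool.Agent.W889.FO
open Pool.Agent.W889.FO.StE (LG gd siso_gd)
open Pool.Agent.W889.VC (DLO BinStr BIso Faithful)
open Pool.Agent.TH783.OT (Tk Tab Dc W itp up ex r1 fd_r1 siso_r1 mk1 r1_mk1 faithful_1)
open Pool.Agent.TH783.FC (gc)
open Pool.Agent.TH783.MD (dlo_of)
open Pool.Agent.TH686.FO (L2 R2 g1 g2)
open Pool.Agent.TH686.DO (DL1)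

variable {𝒞 : (n : ℕ) → (Fin n → Fin n → Prop) → Prop}

/-- faithful completeness -/
theorem faithful_T (h : HasPatterns 𝒞) :
    Faithful BIso (fun y : BinStr => LocallyIn 𝒞 (fun u v => y u v = true)) := by
  obtain ⟨s, hC⟩ := h
  exact faithful_1 (fd_dcT s) (inv_dcT s) (ok_dcT s) fun y hy => locally_match hC hy

theorem cntT (s : Sg) : Itp.Cnt (itp (tabT s) (dcT s) (fd_dcT s) r1 fd_r1) Unit (fun _ => ()) where
  up := fun _ _ h h' hi _ => up (fun e => siso_r1 e) h h' hi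
  bp := fun _ _ _ _ => Pool.Agent.W889.VC.BP.const _

/-- the reduction -/
theorem reduce (s : Sg) (hV : ∀ T' : LG.Theory, (∀ S : LG.Structure ℕ,
      @Theory.Model LG ℕ S T' → W (tabT s) (dcT s) (r1 S)) → Vaught LG T') (T : L2.Theory)
    (hT : ∀ S : L2.Structure ℕ, @Theory.Model L2 ℕ S T → DL1 (g1 S) ∧ DL1 (g2 S)) :
    Vaught L2 T := by
  have := Pool.Agent.TH686.FO.countable_L2
  refine (itp (tabT s) (dcT s) (fd_dcT s) r1 fd_r1).transfer (cntT s) T (fun M hM => ?_)
    fun T' hT' => hV T' fun S hS => (hT' S hS).1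
  obtain ⟨h1, h2⟩ := hT M hM
  exact ex (inv_dcT s) (ok_dcT s) mk1 r1_mk1 M (dlo_of h1) (dlo_of h2)

/-- Vaught's conjecture reduces to complete theories of tournaments. -/
theorem main (h : HasPatterns 𝒞)
    (hV : ∀ T' : LG.Theory, T'.IsComplete → (∀ S : LG.Structure ℕ,
      @Theory.Model LG ℕ S T' → LocallyIn 𝒞 (gd S)) → VaughtF LG T')
    (L : FirstOrder.Language.{0, 0}) (hL : Countable L.Symbols) (T : L.Theory) :
    VaughtF L T := by
  obtain ⟨s, hC⟩ := h
  have := StD.countable_LG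
  have := Pool.Agent.TH686.FO.countable_L2
  refine Pool.Agent.TH686.FO.all_of_LG (Pool.Agent.TH686.DO.red_dd fun T' hT' => ?_) L hL T
  exact reduce s (fun T2 hT2 => Pool.Agent.TH686.FO.compl (P := fun S => LocallyIn 𝒞 (gd S)) hV T2
    fun S hS => locally_match hC (hT2 S hS)) T' hT'

end Pool.Agent.Y561.TO
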