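import Pool.Agent.Y561.TO.LocT
import Pool.Agent.W875.TS.MD5

set_option autoImplicit false

/-! Prime tournaments without a given tournament on at most four vertices. -/

namespace Pool.Agent.Y561.TO

open Set
open Pool.Agent.H533R2.VO (RS)
open Pool.Agent.H533R2.VS (act p2 VCu US UIso)
open Pool.Agent.W875.MR
open Pool.Agent.W875.TS (Mdl Prm qt MQ ts_mod)

/-- Prime tournaments on `ℕ`: a set `S` such that every vertex outside `S` dominates all vertices of
`S` or none of them has at most one element or is everything. -/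
def Prime (E : ℕ → ℕ → Prop) : Prop :=
  ∀ S : Set ℕ, (∀ u, u ∉ S → ∀ v ∈ S, ∀ w ∈ S, (E u v ↔ E u w)) → S.Subsingleton ∨ S = univ

section

variable {E : ℕ → ℕ → Prop}

/-- prime tournaments are strongly connected -/
theorem Prime.strong (hp : Prime E) (h : IsTournament E) {S : Set ℕ}
    (hS : ∀ u ∈ S, ∀ w, E w u → w ∈ S) (hne : S.Nonempty) : S = univ := by
  by_contra hun
  have h1 : S.Subsingleton := by
    refine (hp S fun u hu v hv w hw => ?_).resolve_right hun
    exact iff_of_false (fun e => hu (hS v hv u e)) fun e => hu (hS w hw u e)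
  have h2 : Sᶜ.Subsingleton := by
    refine (hp Sᶜ fun u hu v hv w hw => ?_).resolve_right fun e => ?_
    · have hu' : u ∈ S := by
        by_contra h3
        exact hu h3
      have key : ∀ v, v ∈ Sᶜ → E u v := by
        intro v hv
        rcases h.total u v (fun e => hv (e ▸ hu')) with h3 | h3
        · exact h3
        · exact absurd (hS u hu' v h3) hv
      exact iff_of_true (key v hv) (key w hw)
    · obtain ⟨x, hx⟩ := hne
      have : x ∈ Sᶜ := by
        rw [e]
        exact mem_univ x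
      exact this hx
  by_cases a0 : (0 : ℕ) ∈ S <;> by_cases a1 : (1 : ℕ) ∈ S <;> by_cases a2 : (2 : ℕ) ∈ S
  · exact absurd (h1 a0 a1) (by norm_num)
  · exact absurd (h1 a0 a1) (by norm_num)
  · exact absurd (h1 a0 a2) (by norm_num)
  · exact absurd (h2 a1 a2) (by norm_num)
  · exact absurd (h1 a1 a2) (by norm_num)
  · exact absurd (h2 a0 a2) (by norm_num)
  · exact absurd (h2 a0 a1) (by norm_num)
  · exact absurd (h2 a0 a1) (by norm_num)

/-- no cyclic triangle dominates a vertex -/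
def NoW (E : ℕ → ℕ → Prop) : Prop :=
  ∀ a b c s, Cyc E a b c → ¬ (E a s ∧ E b s ∧ E c s)

theorem up_cyc (h : IsTournament E) (hW : NoW E) {a b c u w : ℕ} (hc : Cyc E a b c)
    (ha : E u a) (hb : E u b) (hc' : E u c) (hw : E w u) : E w a := by
  obtain ⟨ab, bc, ca⟩ := hc
  have as := h.asymm
  have ne : ∀ x, E u x → w ≠ x := by
    rintro x hx rfl
    exact as _ _ hw hx
  by_contra h1
  have aw : E a w := (h.total w a (ne a ha)).resolve_left h1
  have bw : E b w := by
    refine (h.total w b (ne b hb)).resolve_left fun wb => ?_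
    exact hW w u a b ⟨hw, ha, aw⟩ ⟨wb, hb, ab⟩
  have cw : E c w := by
    refine (h.total w c (ne c hc')).resolve_left fun wc => ?_
    exact hW w u b c ⟨hw, hb, bw⟩ ⟨wc, hc', bc⟩
  exact hW a b c w ⟨ab, bc, ca⟩ ⟨aw, bw, cw⟩

theorem out_of_noW (h : IsTournament E) (hp : Prime E) (hW : NoW E) :
    ∀ v a b c, E v a → E v b → E v c → ¬ Cyc E a b c := by
  intro v a b c va vb vc hc
  have h1 := hp.strong h (S := {u | E u a ∧ E u b ∧ E u c}) (by
    rintro u ⟨ua, ub, uc⟩ w wu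
    refine ⟨up_cyc h hW hc ua ub uc wu, ?_, ?_⟩
    · exact up_cyc h hW ⟨hc.2.1, hc.2.2, hc.1⟩ ub uc ua wu
    · exact up_cyc h hW ⟨hc.2.2, hc.1, hc.2.1⟩ uc ua ub wu) ⟨v, va, vb, vc⟩
  have h2 : a ∈ {u | E u a ∧ E u b ∧ E u c} := by
    rw [h1]
    exact mem_univ a
  exact h.irrefl a h2.1

theorem lt_of_noW (h : IsTournament E) (hp : Prime E) (hW : NoW E) : LT E :=
  ⟨h, out_of_noW h hp hW, fun v a b c h1 h2 h3 hc => hW a b c v hc ⟨h1, h2, h3⟩⟩

/-- the reversed relation -/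
def Rv (E : ℕ → ℕ → Prop) (u v : ℕ) : Prop := E v u

theorem tour_rv (h : IsTournament E) : IsTournament (Rv E) :=
  ⟨h.irrefl, fun _ _ h1 h2 => h.asymm _ _ h1 h2, fun x y hxy => (h.total x y hxy).symm⟩

theorem prime_rv (h : IsTournament E) (hp : Prime E) : Prime (Rv E) := by
  intro S hS
  refine hp S fun u hu v hv w hw => ?_
  have key : ∀ v ∈ S, (E u v ↔ ¬ E v u) := fun v hv =>
    ⟨fun h1 h2 => h.asymm _ _ h1 h2, fun h1 =>
      (h.total u v fun e => hu (e ▸ hv)).resolve_right h1⟩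
  rw [key v hv, key w hw]
  exact not_congr (hS u hu v hv w hw)

theorem cyc_rv {a b c : ℕ} (h : Cyc (Rv E) a b c) : Cyc E c b a := ⟨h.2.1, h.1, h.2.2⟩

/-- no vertex dominates a cyclic triangle -/
def NoL (E : ℕ → ℕ → Prop) : Prop :=
  ∀ a b c s, Cyc E a b c → ¬ (E s a ∧ E s b ∧ E s c)

theorem lt_of_noL (h : IsTournament E) (hp : Prime E) (hL : NoL E) : LT E := by
  have h1 := lt_of_noW (tour_rv h) (prime_rv h hp) fun a b c s hc hs =>
    hL c b a s (cyc_rv hc) ⟨hs.2.2, hs.2.1, hs.1⟩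
  refine ⟨h, fun v a b c h2 h3 h4 hc => hL a b c v hc ⟨h2, h3, h4⟩,
    fun v a b c h2 h3 h4 hc => ?_⟩
  exact h1.out v c b a h4 h3 h2 ⟨hc.2.1, hc.1, hc.2.2⟩

/-- no strong subtournament on four vertices -/
def NoC (E : ℕ → ℕ → Prop) : Prop :=
  ∀ a b c s, Cyc E a b c → ¬ (E s a ∧ E b s ∧ E c s)

theorem hom_of_noC (h : IsTournament E) (hC : NoC E) {a b c s : ℕ} (hc : Cyc E a b c)
    (ha : s ≠ a) (hb : s ≠ b) (hc' : s ≠ c) (h1 : E s a) : E s b := by
  obtain ⟨ab, bc, ca⟩ := hc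
  by_contra h2
  have bs : E b s := (h.total s b hb).resolve_left h2
  rcases h.total s c hc' with sc | cs
  · -- `s → c`, `s → a`, `b → s`
    exact hC a b s c ⟨ab, bs, h1⟩ ⟨ca, bc, sc⟩
  · exact hC a b c s ⟨ab, bc, ca⟩ ⟨h1, bs, cs⟩

theorem exists_cyc (h : IsTournament E) (hp : Prime E) : ∃ a b c, Cyc E a b c := by
  by_contra hno
  push Not at hno
  have key : ∀ v, {x | ¬ E v x} = univ := by
    intro v
    refine hp.strong h (fun u hu w wu => ?_) ⟨v, h.irrefl v⟩
    intro vw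
    have huv : u ≠ v := by
      rintro rfl
      exact h.asymm _ _ wu vw
    rcases h.total u v huv with uv | vu
    · exact hno v w u ⟨vw, wu, uv⟩
    · exact hu vu
  rcases h.total 0 1 (by norm_num) with h1 | h1
  · have : (1 : ℕ) ∈ {x | ¬ E 0 x} := by
      rw [key]
      exact mem_univ _
    exact this h1
  · have : (0 : ℕ) ∈ {x | ¬ E 1 x} := by
      rw [key]
      exact mem_univ _
    exact this h1

theorem not_noC (h : IsTournament E) (hp : Prime E) : ¬ NoC E := by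
  intro hC
  obtain ⟨a, b, c, hc⟩ := exists_cyc h hp
  have hc1 : Cyc E b c a := ⟨hc.2.1, hc.2.2, hc.1⟩
  have hc2 : Cyc E c a b := ⟨hc.2.2, hc.1, hc.2.1⟩
  have hab : a ≠ b := by
    rintro rfl
    exact h.irrefl _ hc.1
  have hm : ∀ u, u ∉ ({a, b, c} : Set ℕ) → ∀ v ∈ ({a, b, c} : Set ℕ), ∀ w ∈ ({a, b, c} : Set ℕ),
      (E u v ↔ E u w) := by
    intro u hu v hv w hw
    simp only [mem_insert_iff, mem_singleton_iff, not_or] at hu hv hw
    obtain ⟨ua, ub, uc⟩ := hu
    have k1 : E u a → E u b := hom_of_noC h hC hc ua ub uc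
    have k2 : E u b → E u c := hom_of_noC h hC hc1 ub uc ua
    have k3 : E u c → E u a := hom_of_noC h hC hc2 uc ua ub
    rcases hv with rfl | rfl | rfl <;> rcases hw with rfl | rfl | rfl <;> tauto
  rcases hp {a, b, c} hm with h1 | h1
  · exact hab (h1 (by simp) (by simp))
  · have hfin : (univ : Set ℕ).Finite := by
      rw [← h1]
      exact Set.toFinite _
    exact Set.infinite_univ hfin

end

/-! ### tournaments on four vertices -/

/-- the four tournaments on four vertices: transitive; a cyclic triangle and a sink; a cyclic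
triangle and a source; strong -/
def K4 : Fin 4 → Fin 4 → Fin 4 → Bool := fun k i j => match k with
  | 0 => decide (i < j)
  | 1 => (decide (i = 0 ∧ j = 1)) || (decide (i = 1 ∧ j = 2)) || (decide (i = 2 ∧ j = 0)) ||
      (decide (i ≠ 3 ∧ j = 3))
  | 2 => (decide (i = 0 ∧ j = 1)) || (decide (i = 1 ∧ j = 2)) || (decide (i = 2 ∧ j = 0)) ||
      (decide (i = 3 ∧ j ≠ 3))
  | 3 => (decide (i = 0 ∧ j = 1)) || (decide (i = 1 ∧ j = 2)) || (decide (i = 2 ∧ j = 0)) ||
      (decide (i = 3 ∧ j = 0)) || (decide (i = 1 ∧ j = 3)) || (decide (i = 2 ∧ j = 3))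

/-- the check -/
def ok4 (k x0 x1 x2 x3 : Fin 4) (b01 b02 b03 b12 b13 b23 : Bool) : Bool :=
  (K4 k x0 x1 == b01) && (K4 k x1 x0 == !b01) && (K4 k x0 x2 == b02) && (K4 k x2 x0 == !b02) &&
  (K4 k x0 x3 == b03) && (K4 k x3 x0 == !b03) && (K4 k x1 x2 == b12) && (K4 k x2 x1 == !b12) &&
  (K4 k x1 x3 == b13) && (K4 k x3 x1 == !b13) && (K4 k x2 x3 == b23) && (K4 k x3 x2 == !b23)

theorem k4_cases : ∀ b01 b02 b03 b12 b13 b23 : Bool, ∃ k x0 x1 x2 x3 : Fin 4,
    ok4 k x0 x1 x2 x3 b01 b02 b03 b12 b13 b23 = true := by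
  decide

end Pool.Agent.Y561.TO
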