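import Pool.Agent.Y561.TO.Prm

set_option autoImplicit false

/-! Forbidden tournaments with at most four vertices. -/

namespace Pool.Agent.Y561.TO

open Set
open Pool.Agent.H533R2.VO (RS)
open Pool.Agent.H533R2.VS (act p2 VCu US UIso)
open Pool.Agent.W875.MR
open Pool.Agent.W875.TS (Mdl Prm qt MQ ts_mod)

/-- `(ℕ, E)` is a tournament without subtournament `H`. -/
def HFree {n : ℕ} (H : Fin n → Fin n → Prop) (E : ℕ → ℕ → Prop) : Prop :=
  IsTournament E ∧ ¬ ∃ f : Fin n → ℕ, Function.Injective f ∧ ∀ i j, H i j ↔ E (f i) (f j)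

/-- Every prime subtournament on an infinite set is locally transitive. -/
def LTPrimes (E : ℕ → ℕ → Prop) : Prop :=
  IsTournament E ∧ ∀ e : ℕ → ℕ, Function.Injective e → Prime (fun u v => E (e u) (e v)) →
    LT (fun u v => E (e u) (e v))

section ramsey

variable {E : ℕ → ℕ → Prop}

theorem step (h : IsTournament E) {S : Set ℕ} (hS : S.Infinite) : ∃ v ∈ S, ∃ S' : Set ℕ,
    S' ⊆ S ∧ S'.Infinite ∧ v ∉ S' ∧ ((∀ u ∈ S', E v u) ∨ ∀ u ∈ S', E u v) := by
  obtain ⟨v, hv⟩ := hS.nonempty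
  have h1 : S \ {v} ⊆ {u | u ∈ S ∧ E v u} ∪ {u | u ∈ S ∧ E u v} := by
    rintro u ⟨hu, hne⟩
    rcases h.total v u (fun e => hne e.symm) with h2 | h2
    · exact Or.inl ⟨hu, h2⟩
    · exact Or.inr ⟨hu, h2⟩
  have h2 : (S \ {v}).Infinite := hS.diff (Set.finite_singleton v)
  rcases Set.infinite_union.1 (h2.mono h1) with h3 | h3
  · exact ⟨v, hv, _, fun u hu => hu.1, h3, fun h4 => h.irrefl _ h4.2, Or.inl fun u hu => hu.2⟩
  · exact ⟨v, hv, _, fun u hu => hu.1, h3, fun h4 => h.irrefl _ h4.2, Or.inr fun u hu => hu.2⟩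

/-- transitive subtournaments with four vertices -/
theorem exists_tt (h : IsTournament E) : ∃ a b c d,
    (E a b ∧ E a c ∧ E a d) ∧ (E b c ∧ E b d) ∧ E c d := by
  obtain ⟨v0, -, S1, -, i1, -, h1⟩ := step h Set.infinite_univ
  obtain ⟨v1, m1, S2, s2, i2, -, h2⟩ := step h i1
  obtain ⟨v2, m2, S3, s3, i3, -, h3⟩ := step h i2
  obtain ⟨v3, m3⟩ := i3.nonempty
  have q2 : v2 ∈ S1 := s2 m2
  have q3 : v3 ∈ S2 := s3 m3
  have q3' : v3 ∈ S1 := s2 q3
  rcases h1 with h1 | h1 <;> rcases h2 with h2 | h2 <;> rcases h3 with h3 | h3 <;>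
    have a1 := h1 _ m1 <;> have a2 := h1 _ q2 <;> have a3 := h1 _ q3' <;>
    have b2 := h2 _ m2 <;> have b3 := h2 _ q3 <;> have c3 := h3 _ m3
  · exact ⟨v0, v1, v2, v3, ⟨a1, a2, a3⟩, ⟨b2, b3⟩, c3⟩
  · exact ⟨v0, v1, v3, v2, ⟨a1, a3, a2⟩, ⟨b3, b2⟩, c3⟩
  · exact ⟨v0, v2, v3, v1, ⟨a2, a3, a1⟩, ⟨c3, b2⟩, b3⟩
  · exact ⟨v0, v3, v2, v1, ⟨a3, a2, a1⟩, ⟨c3, b3⟩, b2⟩
  · exact ⟨v1, v2, v3, v0, ⟨b2, b3, a1⟩, ⟨c3, a2⟩, a3⟩
  · exact ⟨v1, v3, v2, v0, ⟨b3, b2, a1⟩, ⟨c3, a3⟩, a2⟩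
  · exact ⟨v2, v3, v1, v0, ⟨c3, b2, a2⟩, ⟨b3, a3⟩, a1⟩
  · exact ⟨v3, v2, v1, v0, ⟨c3, b3, a3⟩, ⟨b2, a2⟩, a1⟩

end ramsey

section four

theorem K4_irr : ∀ k y : Fin 4, K4 k y y = false := by
  decide

/-- tournaments with at most four vertices -/
theorem small_emb {n : ℕ} (hn : n ≤ 4) (H : Fin n → Fin n → Prop) (hH : IsTournament H) :
    ∃ (k : Fin 4) (x : Fin n → Fin 4), ∀ i j, H i j ↔ K4 k (x i) (x j) = true := by
  classical
  let H' : Fin 4 → Fin 4 → Prop := fun i j =>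
    (∃ (hi : (i : ℕ) < n) (hj : (j : ℕ) < n), H ⟨i, hi⟩ ⟨j, hj⟩) ∨ (¬ (j : ℕ) < n ∧ i < j)
  have irr : ∀ i, ¬ H' i i := by
    rintro i (⟨h1, h2, h3⟩ | h1)
    · exact hH.irrefl _ h3
    · exact lt_irrefl _ h1.2
  have neg : ∀ i j, i ≠ j → (H' j i ↔ ¬ H' i j) := by
    intro i j hij
    constructor
    · rintro (⟨h1, h2, h3⟩ | ⟨h1, h2⟩) (⟨k1, k2, k3⟩ | ⟨k1, k2⟩)
      · exact hH.asymm _ _ h3 k3
      · exact k1 h1
      · exact h1 k1
      · exact lt_asymm h2 k2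
    · intro h1
      simp only [H', not_or, not_and, not_exists] at h1
      obtain ⟨h2, h3⟩ := h1
      by_cases hi : (i : ℕ) < n
      · by_cases hj : (j : ℕ) < n
        · refine Or.inl ⟨hj, hi, ?_⟩
          refine (hH.total ⟨i, hi⟩ ⟨j, hj⟩ fun e => hij ?_).resolve_left (h2 hi hj)
          exact Fin.ext (by simpa using e)
        · exfalso
          refine h3 hj ?_
          rw [Fin.lt_def]
          omega
      · refine Or.inr ⟨hi, ?_⟩
        by_cases hj : (j : ℕ) < n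
        · rw [Fin.lt_def]
          omega
        · have := h3 hj
          rw [Fin.lt_def] at this ⊢
          have : (i : ℕ) ≠ j := fun e => hij (Fin.ext e)
          omega
  obtain ⟨k, x0, x1, x2, x3, hk⟩ := k4_cases (decide (H' 0 1)) (decide (H' 0 2))
    (decide (H' 0 3)) (decide (H' 1 2)) (decide (H' 1 3)) (decide (H' 2 3))
  simp only [ok4, Bool.and_eq_true, beq_iff_eq] at hk
  obtain ⟨⟨⟨⟨⟨⟨⟨⟨⟨⟨⟨c1, c2⟩, c3⟩, c4⟩, c5⟩, c6⟩, c7⟩, c8⟩, c9⟩, c10⟩, c11⟩, c12⟩ := hk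
  have kk : ∀ y : Fin 4, K4 k y y = false := K4_irr k
  refine ⟨k, fun i => (![x0, x1, x2, x3] : Fin 4 → Fin 4) ⟨i, lt_of_lt_of_le i.2 hn⟩,
    fun i j => ?_⟩
  have h1 : H i j ↔ H' ⟨i, lt_of_lt_of_le i.2 hn⟩ ⟨j, lt_of_lt_of_le j.2 hn⟩ := by
    constructor
    · exact fun h => Or.inl ⟨i.2, j.2, h⟩
    · rintro (⟨_, _, h⟩ | ⟨h, -⟩)
      · exact h
      · exact absurd j.2 h
  rw [h1]
  have h2 : ∀ i j : Fin 4, H' i j ↔
      K4 k ((![x0, x1, x2, x3] : Fin 4 → Fin 4) i) ((![x0, x1, x2, x3] : Fin 4 → Fin 4) j) =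
        true := by
    have n10 := neg 0 1 (by decide)
    have n20 := neg 0 2 (by decide)
    have n30 := neg 0 3 (by decide)
    have n21 := neg 1 2 (by decide)
    have n31 := neg 1 3 (by decide)
    have n32 := neg 2 3 (by decide)
    intro i j
    fin_cases i <;> fin_cases j
    · simp [irr, kk]
    · simp [c1]
    · simp [c3]
    · simp [c5]
    · simp [c2, n10]
    · simp [irr, kk]
    · simp [c7]
    · simp [c9]
    · simp [c4, n20]
    · simp [c8, n21]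
    · simp [irr, kk]
    · simp [c11]
    · simp [c6, n30]
    · simp [c10, n31]
    · simp [c12, n32]
    · simp [irr, kk]
  exact h2 _ _

variable {E : ℕ → ℕ → Prop}

theorem cfg_free {n : ℕ} {H : Fin n → Fin n → Prop} (hH : IsTournament H)
    (h : HFree H E) {k : Fin 4} {x : Fin n → Fin 4}
    (hx : ∀ i j, H i j ↔ K4 k (x i) (x j) = true) (y : Fin 4 → ℕ)
    (hy : ∀ i j, E (y i) (y j) ↔ K4 k i j = true) : False := by
  refine h.2 ⟨fun i => y (x i), fun i j hij => ?_, fun i j => by rw [hx, hy]⟩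
  have hij : y (x i) = y (x j) := hij
  by_contra hne
  rcases hH.total i j hne with h1 | h1
  · rw [hx, ← hy, hij] at h1
    exact h.1.irrefl _ h1
  · rw [hx, ← hy, hij] at h1
    exact h.1.irrefl _ h1

/-- the prime tournaments without `H` are locally transitive -/
theorem prime_small {n : ℕ} (hn : n ≤ 4) {H : Fin n → Fin n → Prop} (hH : IsTournament H)
    (h : HFree H E) (hp : Prime E) : LT E := by
  obtain ⟨k, x, hx⟩ := small_emb hn H hH
  have hno := cfg_free hH h hx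
  have as := h.1.asymm
  have ir := h.1.irrefl
  obtain ⟨k, hk⟩ : ∃ k', k' = k := ⟨k, rfl⟩
  fin_cases k
  · exfalso
    obtain ⟨a, b, c, d, ⟨ab, ac, ad⟩, ⟨bc, bd⟩, cd⟩ := exists_tt h.1
    refine hno ![a, b, c, d] fun i j => ?_
    rw [← hk]
    fin_cases i <;> fin_cases j <;>
      simp [K4, ir, ab, ac, ad, bc, bd, cd, as _ _ ab, as _ _ ac, as _ _ ad, as _ _ bc, as _ _ bd,
        as _ _ cd]
  · refine lt_of_noW h.1 hp ?_
    rintro a b c s ⟨ab, bc, ca⟩ ⟨sa, sb, sc⟩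
    refine hno ![a, b, c, s] fun i j => ?_
    rw [← hk]
    fin_cases i <;> fin_cases j <;>
      simp [K4, ir, ab, bc, ca, sa, sb, sc, as _ _ ab, as _ _ bc, as _ _ ca, as _ _ sa, as _ _ sb,
        as _ _ sc]
  · refine lt_of_noL h.1 hp ?_
    rintro a b c s ⟨ab, bc, ca⟩ ⟨sa, sb, sc⟩
    refine hno ![a, b, c, s] fun i j => ?_
    rw [← hk]
    fin_cases i <;> fin_cases j <;>
      simp [K4, ir, ab, bc, ca, sa, sb, sc, as _ _ ab, as _ _ bc, as _ _ ca, as _ _ sa, as _ _ sb,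
        as _ _ sc]
  · exfalso
    refine not_noC h.1 hp ?_
    rintro a b c s ⟨ab, bc, ca⟩ ⟨sa, sb, sc⟩
    refine hno ![a, b, c, s] fun i j => ?_
    rw [← hk]
    fin_cases i <;> fin_cases j <;>
      simp [K4, ir, ab, bc, ca, sa, sb, sc, as _ _ ab, as _ _ bc, as _ _ ca, as _ _ sa, as _ _ sb,
        as _ _ sc]

/-- tournaments without a given tournament on at most four vertices -/
theorem LTPrimes.of_small {n : ℕ} (hn : n ≤ 4) {H : Fin n → Fin n → Prop} (hH : IsTournament H)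
    (h : HFree H E) : LTPrimes E := by
  refine ⟨h.1, fun e he hp => prime_small hn hH ⟨⟨fun x => h.1.irrefl _, fun x y => h.1.asymm _ _,
    fun x y hxy => h.1.total _ _ fun h1 => hxy (he h1)⟩, ?_⟩ hp⟩
  rintro ⟨f, h1, h2⟩
  exact h.2 ⟨fun i => e (f i), he.comp h1, h2⟩

end four

section mod

variable {E : ℕ → ℕ → Prop}

theorem G1_apply (E : ℕ → ℕ → Prop) (i : ℕ) (t : Fin 2 → ℕ) :
    G1 E i t = dcd (i = 0 ∧ E (t 0) (t 1)) := by
  unfold G1 S3
  rw [Bool.eq_iff_iff, dcd_iff, dcd_iff]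
  simp

theorem mdl_G1 (h : IsTournament E) {S : Set ℕ}
    (hS : ∀ u, u ∉ S → ∀ v ∈ S, ∀ w ∈ S, (E u v ↔ E u w)) : Mdl (G1 E) S := by
  have hS' : ∀ u, u ∉ S → ∀ v ∈ S, ∀ w ∈ S, (E v u ↔ E w u) := by
    intro u hu v hv w hw
    have key : ∀ v ∈ S, (E v u ↔ ¬ E u v) := fun v hv =>
      ⟨fun h1 h2 => h.asymm _ _ h1 h2, fun h1 =>
        (h.total u v fun e => hu (e ▸ hv)).resolve_left h1⟩
    rw [key v hv, key w hw]
    exact not_congr (hS u hu v hv w hw)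
  intro i t k l b hk hb hl
  have hkl : k ≠ l := by
    rintro rfl
    exact hl hk
  rw [G1_apply, G1_apply, Bool.eq_iff_iff, dcd_iff, dcd_iff]
  refine and_congr Iff.rfl ?_
  fin_cases k <;> fin_cases l
  · exact absurd rfl hkl
  · simp only [Fin.zero_eta, Fin.mk_one] at hk hl ⊢
    rw [Function.update_self, Function.update_of_ne (show (1 : Fin 2) ≠ 0 by decide)]
    exact hS' _ hl _ hb _ hk
  · simp only [Fin.zero_eta, Fin.mk_one] at hk hl ⊢
    rw [Function.update_self, Function.update_of_ne (show (0 : Fin 2) ≠ 1 by decide)]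
    exact hS _ hl _ hb _ hk
  · exact absurd rfl hkl

theorem prime_of_prm (h : IsTournament E) (hp : Prm (G1 E)) : Prime E :=
  fun S hS => hp S (mdl_G1 h hS)

/-- Vaught's conjecture for tournaments with locally transitive prime subtournaments. -/
theorem vcu_LTPrimes : VCu fun x : RS A2 => ∃ E, LTPrimes E ∧ x = G1 E := by
  refine vcu_mono (ts_mod A2 (fun _ => Nat.succ_pos 1) _ vcu_LT) ?_
  rintro _ ⟨E, ⟨h, hE⟩, rfl⟩ X e he - hd - hprm
  have hinj : Function.Injective e := by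
    intro m n hmn
    by_contra hne
    exact Set.disjoint_left.1 (hd m n hne) (he m) (hmn ▸ he n)
  have h' : IsTournament (fun u v => E (e u) (e v)) :=
    ⟨fun x => h.irrefl _, fun x y => h.asymm _ _, fun x y hxy => h.total _ _ fun h1 => hxy (hinj h1)⟩
  have hq : qt (G1 E) e = G1 (fun u v => E (e u) (e v)) := by
    funext i v
    unfold qt
    have hv2 : v = p2 (v 0) (v 1) := (p2_eta v).symm
    split_ifs with h1
    · rw [G1_apply, G1_apply]
      rfl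
    · rw [G1_apply, eq_comm, dcd_false]
      rintro ⟨-, h2⟩
      refine h1 ⟨0, 1, fun h3 => ?_⟩
      have h2 : E (e (v (0 : Fin 2))) (e (v (1 : Fin 2))) := h2
      rw [show v (0 : Fin 2) = v (1 : Fin 2) from h3] at h2
      exact h.irrefl _ h2
  rw [hq] at hprm ⊢
  exact ⟨_, hE e hinj (prime_of_prm h' hprm), rfl⟩

end mod

end Pool.Agent.Y561.TO
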