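import Pool.Agent.TH783.OT.OG

set_option autoImplicit false

/-! Tournaments: the coding of pairs of dense linear orders. -/

namespace Pool.Agent.Y561.TO

open Pool.Agent.TH783.FC (FD1 FD2)
open Pool.Agent.W889.FO
open Pool.Agent.W889.FO.StA (FD.all1 FD.ex1)
open Pool.Agent.W889.VC (DLO)
open Pool.Agent.TH783.OT (Tk Tab Dc eq_of_not)

/-- the three ways to encode a matching -/
inductive Sg
  | ne | le | ge

/-- the edges from the first to the second part -/
def Sg.cr : Sg → Prop → Prop → Prop → Prop → Prop → Prop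
  | .ne, _, _, _, _, e => ¬ e
  | .le, _, _, _, g, _ => ¬ g
  | .ge, _, _, l, _, _ => ¬ l

/-- the table of tournaments -/
def tabT (s : Sg) : Tab Unit where
  pp := fun _ k k' l1 g1 l2 g2 e => match k, k' with
    | false, false => l1
    | true, true => l2
    | false, true => s.cr l1 g1 l2 g2 e
    | true, false => ¬ s.cr g1 l1 g2 l2 e
  ps := fun _ k i => match k, i with
    | true, false => False
    | _, _ => True
  sp := fun _ i k => match i, k with
    | false, true => True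
    | _, _ => False
  ss := fun _ i i' => match i, i' with
    | true, false => True
    | _, _ => False

section dec

variable {T : Type}

/-- the element of outdegree one -/
def S1 (l : T → T → Prop) (u : T) : Prop := ∃ v, l u v ∧ ∀ w, l u w → w = v
def S0 (l : T → T → Prop) (v : T) : Prop := ∃ u, S1 l u ∧ l u v
def PA (l : T → T → Prop) (u : T) : Prop := ∃ m, S0 l m ∧ l u m ∧ ¬ S1 l u
def PB (l : T → T → Prop) (u : T) : Prop := ∃ m, S0 l m ∧ l m u

/-- the matching -/
def Mt (s : Sg) (l : T → T → Prop) (a b : T) : Prop := match s with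
  | .ne => l b a
  | .le => l a b ∧ ∀ b', PB l b' → l a b' → ¬ l b' b
  | .ge => l a b ∧ ∀ b', PB l b' → l a b' → ¬ l b b'

/-- the second order -/
def Ot (s : Sg) (l : T → T → Prop) (a a' : T) : Prop :=
  ∃ b b', PB l b ∧ PB l b' ∧ Mt s l a b ∧ Mt s l a' b' ∧ l b b'

end dec

/-- the decoders -/
def dcT (s : Sg) : Dc Unit where
  dm := fun X => PA (X ())
  o1 := fun X => X ()
  o2 := fun X => Ot s (X ())
  at' := fun X k u x => match k with
    | false => PA (X ()) x ∧ u = x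
    | true => PA (X ()) x ∧ PB (X ()) u ∧ Mt s (X ()) x u
  sp := fun X i => match i with
    | false => S0 (X ())
    | true => S1 (X ())

section inv

variable {T S : Type} (e : T ≃ S) {X : Unit → T → T → Prop} {Y : Unit → S → S → Prop}
  (h : ∀ j u v, X j u v ↔ Y j (e u) (e v))

include h

theorem s1_map (u : T) : S1 (X ()) u ↔ S1 (Y ()) (e u) := by
  simp only [S1, e.surjective.exists, e.surjective.forall, h, e.injective.eq_iff]

theorem s0_map (u : T) : S0 (X ()) u ↔ S0 (Y ()) (e u) := by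
  simp only [S0, e.surjective.exists, s1_map e h, h]

theorem pa_map (u : T) : PA (X ()) u ↔ PA (Y ()) (e u) := by
  simp only [PA, e.surjective.exists, s0_map e h, s1_map e h, h]

theorem pb_map (u : T) : PB (X ()) u ↔ PB (Y ()) (e u) := by
  simp only [PB, e.surjective.exists, s0_map e h, h]

theorem mt_map (s : Sg) (u v : T) : Mt s (X ()) u v ↔ Mt s (Y ()) (e u) (e v) := by
  cases s <;> simp only [Mt, e.surjective.forall, pb_map e h, h]

theorem ot_map (s : Sg) (u v : T) : Ot s (X ()) u v ↔ Ot s (Y ()) (e u) (e v) := by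
  simp only [Ot, e.surjective.exists, pb_map e h, mt_map e h, h]

end inv

theorem inv_dcT (s : Sg) : (dcT s).Inv where
  dm := fun e _ _ h u => pa_map e h u
  o1 := fun e _ _ h u v => h () u v
  o2 := fun e _ _ h u v => ot_map e h s u v
  at' := fun e X Y h k u v => by
    cases k
    · show PA (X ()) v ∧ u = v ↔ PA (Y ()) (e v) ∧ e u = e v
      rw [pa_map e h, e.injective.eq_iff]
    · show PA (X ()) v ∧ PB (X ()) u ∧ Mt s (X ()) v u ↔
        PA (Y ()) (e v) ∧ PB (Y ()) (e u) ∧ Mt s (Y ()) (e v) (e u)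
      rw [pa_map e h, pb_map e h, mt_map e h]
  sp := fun e _ _ h i u => by
    cases i
    · exact s0_map e h u
    · exact s1_map e h u

section fd

variable {L : FirstOrder.Language.{0, 0}} {V : L.Structure ℕ → Prop}
    {l : L.Structure ℕ → ℕ → ℕ → Prop}

theorem fd_s1 (h : FD2 V l) : FD1 V (fun S => S1 (l S)) := fun {α} i =>
  FD.ex1 (P := fun S v w => l S (v i) w ∧ ∀ x, l S (v i) x → x = w) <| (h _ _ _).and <|
    FD.all1 (P := fun S (v : α ⊕ Unit → ℕ) x => l S (v (Sum.inl i)) x → x = v (Sum.inr ())) <|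
    (h _ _ _).imp (FD.eq _ _)

theorem fd_s0 (h : FD2 V l) : FD1 V (fun S => S0 (l S)) := fun _ i =>
  FD.ex1 (P := fun S v w => S1 (l S) w ∧ l S w (v i)) <| (fd_s1 h _ _).and (h _ _ _)

theorem fd_pa (h : FD2 V l) : FD1 V (fun S => PA (l S)) := fun _ i =>
  FD.ex1 (P := fun S v w => S0 (l S) w ∧ l S (v i) w ∧ ¬ S1 (l S) (v i)) <|
    (fd_s0 h _ _).and <| (h _ _ _).and (fd_s1 h _ _).not

theorem fd_pb (h : FD2 V l) : FD1 V (fun S => PB (l S)) := fun _ i =>
  FD.ex1 (P := fun S v w => S0 (l S) w ∧ l S w (v i)) <| (fd_s0 h _ _).and (h _ _ _)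

theorem fd_mt (s : Sg) (h : FD2 V l) : FD2 V (fun S => Mt s (l S)) := by
  cases s with
  | ne => exact fun _ _ _ => h _ _ _
  | le => exact fun _ i j => (h _ _ _).and <|
      FD.all1 (P := fun S v b' => PB (l S) b' → l S (v i) b' → ¬ l S b' (v j)) <|
      (fd_pb h _ _).imp <| (h _ _ _).imp (h _ _ _).not
  | ge => exact fun _ i j => (h _ _ _).and <|
      FD.all1 (P := fun S v b' => PB (l S) b' → l S (v i) b' → ¬ l S (v j) b') <|
      (fd_pb h _ _).imp <| (h _ _ _).imp (h _ _ _).not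

theorem fd_ot (s : Sg) (h : FD2 V l) : FD2 V (fun S => Ot s (l S)) := by
  intro α i j
  refine (FD.ex (β := Fin 2) (P := fun S v (b : Fin 2 → ℕ) => PB (l S) (b 0) ∧ PB (l S) (b 1) ∧
    Mt s (l S) (v i) (b 0) ∧ Mt s (l S) (v j) (b 1) ∧ l S (b 0) (b 1)) <|
    (fd_pb h _ _).and <| (fd_pb h _ _).and <| (fd_mt s h _ _ _).and <|
    (fd_mt s h _ _ _).and (h _ _ _)).congr fun S _ v => ?_
  constructor
  · rintro ⟨b, h1⟩
    exact ⟨b 0, b 1, h1⟩
  · rintro ⟨u, y, h1⟩
    exact ⟨![u, y], h1⟩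

end fd

theorem fd_dcT (s : Sg) : (dcT s).Fd where
  dm := fun h => fd_pa (h ())
  o1 := fun h => h ()
  o2 := fun h => fd_ot s (h ())
  at' := fun h k => by
    cases k
    · exact fun _ i j => (fd_pa (h ()) _ _).and (FD.eq _ _)
    · exact fun _ i j => (fd_pa (h ()) _ _).and <| (fd_pb (h ()) _ _).and <|
        fd_mt s (h ()) _ _ _
  sp := fun h i => by
    cases i
    · exact fd_s0 (h ())
    · exact fd_s1 (h ())

section std

variable {Q : Type} [Nonempty Q] {o1 o2 : Q → Q → Prop} (h1 : DLO o1) (h2 : DLO o2) {s : Sg}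

include h1 h2

theorem s1_std {u : Tk Q} : S1 ((tabT s).SY o1 o2 ()) u ↔ u = .s true := by
  constructor
  · rintro ⟨v, k1, k2⟩
    rcases u with ⟨_ | _, x⟩ | _ | _
    · obtain ⟨z, h3⟩ := h1.above x
      obtain ⟨w, h4⟩ := h1.above z
      have e1 := k2 (.p false z) h3
      have e2 := k2 (.p false w) (h1.trans _ _ _ h3 h4)
      rw [← e1] at e2
      have e3 : w = z := by simpa using e2
      rw [e3] at h4
      exact (h1.irrefl _ h4).elim
    · obtain ⟨z, h3⟩ := h2.above x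
      obtain ⟨w, h4⟩ := h2.above z
      have e1 := k2 (.p true z) h3
      have e2 := k2 (.p true w) (h2.trans _ _ _ h3 h4)
      rw [← e1] at e2
      have e3 : w = z := by simpa using e2
      rw [e3] at h4
      exact (h2.irrefl _ h4).elim
    · obtain ⟨x⟩ := ‹Nonempty Q›
      obtain ⟨w, h4⟩ := h2.above x
      have e1 := k2 (.p true x) trivial
      have e2 := k2 (.p true w) trivial
      rw [← e1] at e2
      have e3 : w = x := by simpa using e2
      rw [e3] at h4
      exact (h2.irrefl _ h4).elim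
    · rfl
  · rintro rfl
    refine ⟨.s false, trivial, ?_⟩
    rintro (⟨_ | _, x⟩ | _ | _) h3
    · exact h3.elim
    · exact h3.elim
    · rfl
    · exact h3.elim

theorem s0_std {u : Tk Q} : S0 ((tabT s).SY o1 o2 ()) u ↔ u = .s false := by
  unfold S0
  simp only [s1_std h1 h2]
  constructor
  · rintro ⟨_, rfl, h3⟩
    rcases u with ⟨_ | _, x⟩ | _ | _
    · exact h3.elim
    · exact h3.elim
    · rfl
    · exact h3.elim
  · rintro rfl
    exact ⟨_, rfl, trivial⟩

theorem pa_std {u : Tk Q} : PA ((tabT s).SY o1 o2 ()) u ↔ ∃ q, u = .p false q := by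
  unfold PA
  simp only [s0_std h1 h2, s1_std h1 h2]
  constructor
  · rintro ⟨_, rfl, h3, h4⟩
    rcases u with ⟨_ | _, x⟩ | _ | _
    · exact ⟨x, rfl⟩
    · exact h3.elim
    · exact h3.elim
    · exact (h4 rfl).elim
  · rintro ⟨x, rfl⟩
    exact ⟨_, rfl, trivial, by simp⟩

theorem pb_std {u : Tk Q} : PB ((tabT s).SY o1 o2 ()) u ↔ ∃ q, u = .p true q := by
  unfold PB
  simp only [s0_std h1 h2]
  constructor
  · rintro ⟨_, rfl, h3⟩
    rcases u with ⟨_ | _, x⟩ | _ | _
    · exact h3.elim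
    · exact ⟨x, rfl⟩
    · exact h3.elim
    · exact h3.elim
  · rintro ⟨x, rfl⟩
    exact ⟨_, rfl, trivial⟩

theorem mt_std {x y : Q} : Mt s ((tabT s).SY o1 o2 ()) (.p false x) (.p true y) ↔ x = y := by
  cases s with
  | ne =>
    show ¬ ¬ (y = x) ↔ x = y
    rw [not_not, eq_comm]
  | le =>
    simp only [Mt, pb_std h1 h2]
    constructor
    · rintro ⟨k1, k2⟩
      exact eq_of_not h1 h2 h2 (k2 _ ⟨x, rfl⟩ (h2.irrefl x)) k1
    · rintro rfl
      refine ⟨h2.irrefl x, ?_⟩
      rintro _ ⟨z, rfl⟩ h3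
      exact h3
  | ge =>
    simp only [Mt, pb_std h1 h2]
    constructor
    · rintro ⟨k1, k2⟩
      exact eq_of_not h1 h2 h2 k1 (k2 _ ⟨x, rfl⟩ (h2.irrefl x))
    · rintro rfl
      refine ⟨h2.irrefl x, ?_⟩
      rintro _ ⟨z, rfl⟩ h3
      exact h3

theorem ot_std {x y : Q} : Ot s ((tabT s).SY o1 o2 ()) (.p false x) (.p false y) ↔ o2 x y := by
  constructor
  · rintro ⟨b, b', h3, h4, h5, h6, h7⟩
    obtain ⟨z, rfl⟩ := (pb_std h1 h2).1 h3
    obtain ⟨w, rfl⟩ := (pb_std h1 h2).1 h4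
    obtain rfl := (mt_std h1 h2).1 h5
    obtain rfl := (mt_std h1 h2).1 h6
    exact h7
  · exact fun h => ⟨.p true x, .p true y, (pb_std h1 h2).2 ⟨_, rfl⟩, (pb_std h1 h2).2 ⟨_, rfl⟩,
      (mt_std h1 h2).2 rfl, (mt_std h1 h2).2 rfl, h⟩

end std

theorem ok_dcT (s : Sg) : (dcT s).Ok (tabT s) where
  dm := fun h1 h2 _ => pa_std h1 h2
  o1 := fun _ _ _ _ => Iff.rfl
  o2 := fun h1 h2 _ _ => ot_std h1 h2
  at' := fun {Q} _ {o1 o2} h1 h2 k u x => by
    cases k
    · show PA ((tabT s).SY o1 o2 ()) x ∧ u = x ↔ _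
      rw [pa_std h1 h2]
      constructor
      · rintro ⟨⟨q, rfl⟩, rfl⟩
        exact ⟨q, rfl, rfl⟩
      · rintro ⟨q, rfl, rfl⟩
        exact ⟨⟨q, rfl⟩, rfl⟩
    · show PA ((tabT s).SY o1 o2 ()) x ∧ PB ((tabT s).SY o1 o2 ()) u ∧
        Mt s ((tabT s).SY o1 o2 ()) x u ↔ _
      rw [pa_std h1 h2, pb_std h1 h2]
      constructor
      · rintro ⟨⟨q, rfl⟩, ⟨q', rfl⟩, h3⟩
        obtain rfl := (mt_std h1 h2).1 h3
        exact ⟨q, rfl, rfl⟩
      · rintro ⟨q, rfl, rfl⟩
        exact ⟨⟨q, rfl⟩, ⟨q, rfl⟩, (mt_std h1 h2).2 rfl⟩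
  sp := fun h1 h2 i u => by
    cases i
    · exact s0_std h1 h2
    · exact s1_std h1 h2

end Pool.Agent.Y561.TO
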